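import Pool.Agent.H18.VZ.Targets

/-!
# Non-fibered rational self-maps: regular functions are recognized at the power series points
-/

set_option autoImplicit false

open MvPolynomial
open Pool.Agent.H12.ZD (pmap)
open Pool.Agent.H18.HIT Pool.Agent.H18.HX Pool.Agent.H18.VZ

namespace Pool.Agent.H10.VZ

/-- expansion of `f'(x) y` in the powers of `x` -/
theorem dual_expand {L K : Type} [Field L] [Field K] [Algebra L K] [FiniteDimensional L K]
    [Algebra.IsSeparable L K] (pb : PowerBasis L K) (y : K) :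
    Polynomial.aeval pb.gen (Polynomial.derivative (minpoly L pb.gen)) * y =
      ∑ i : Fin pb.dim, algebraMap L K (Algebra.trace L K (y * (minpolyDiv L pb.gen).coeff i)) *
        pb.gen ^ (i : ℕ) := by
  classical
  set D := Polynomial.aeval pb.gen (Polynomial.derivative (minpoly L pb.gen)) with hD
  have hD0 : D ≠ 0 :=
    (Algebra.IsSeparable.isSeparable L pb.gen).aeval_derivative_ne_zero (minpoly.aeval _ _)
  have h1 : ∀ i, pb.basis.repr (D * y) i =
      Algebra.trace L K (y * (minpolyDiv L pb.gen).coeff i) := by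
    intro i
    have h2 := Module.Basis.traceDual_repr_apply (b := pb.basis.traceDual) (D * y) i
    rw [Module.Basis.traceDual_traceDual] at h2
    rw [h2, Algebra.traceForm_apply, Module.Basis.traceDual_powerBasis_eq, ← hD]
    congr 1
    field_simp
  conv_lhs => rw [← pb.basis.sum_repr (D * y)]
  refine Finset.sum_congr rfl fun i _ => ?_
  rw [h1, pb.basis_eq_pow, Algebra.smul_def]

/-- the trace of an element whose conjugates are integral -/
theorem tr_dvd {R L K S E : Type} [CommRing R] [IsDomain R] [Field L] [Field K] [Algebra R L]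
    [IsFractionRing R L] [Algebra L K] [FiniteDimensional L K] [Algebra.IsSeparable L K]
    [CommRing S] [Field E] [IsAlgClosed E] (emb : S →+* E) (hemb : Function.Injective emb)
    (β : R →+* S) (hβ : Function.Injective β) (y : K)
    (hy : ∀ σ : K →+* E, (∀ a : R, σ (algebraMap L K (algebraMap R L a)) = emb (β a)) →
      ∃ u : S, σ y = emb u) (a b : R) (hb : b ≠ 0)
    (hz : Algebra.trace L K y = algebraMap R L a / algebraMap R L b) : β b ∣ β a := by
  have hinj : Function.Injective (emb.comp β) := hemb.comp hβ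
  let _ : Algebra L E := (IsFractionRing.lift hinj).toAlgebra
  have hL : ∀ a : R, algebraMap L E (algebraMap R L a) = emb (β a) := fun a =>
    IsFractionRing.lift_algebraMap hinj a
  have h1 := trace_eq_sum_embeddings (K := L) (L := K) E (x := y)
  have h2 : ∀ σ : K →ₐ[L] E, ∃ u : S, σ y = emb u := fun σ => hy σ.toRingHom (fun a => by
    rw [← hL]
    exact σ.commutes _)
  choose u hu using h2
  refine ⟨∑ σ, u σ, hemb ?_⟩
  have hb' : emb (β b) ≠ 0 := by
    rw [Ne, map_eq_zero_iff emb hemb, map_eq_zero_iff β hβ]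
    exact hb
  have h3 : emb (β a) / emb (β b) = emb (∑ σ, u σ) := by
    rw [map_sum, ← Finset.sum_congr rfl (fun σ _ => hu σ), ← h1, hz, map_div₀, hL, hL]
  rw [map_mul, ← h3]
  field_simp

theorem fse_pd {N : ℕ} {k : Type} [CommRing k] (q : Po (N + 1) k) :
    finSuccEquiv k N (pderiv 0 q) = Polynomial.derivative (finSuccEquiv k N q) := by
  induction q using MvPolynomial.induction_on with
  | C c =>
    rw [pderiv_C, map_zero, finSuccEquiv_apply, eval₂Hom_C, RingHom.comp_apply,
      Polynomial.derivative_C]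
  | add p q hp hq => rw [map_add, map_add, hp, hq, map_add, Polynomial.derivative_add]
  | mul_X p i hp =>
    rw [pderiv_mul, map_add, map_mul, map_mul, hp, map_mul, Polynomial.derivative_mul]
    congr 2
    refine Fin.cases ?_ (fun j => ?_) i
    · rw [pderiv_X_self, map_one, finSuccEquiv_X_zero, Polynomial.derivative_X]
    · rw [pderiv_X_of_ne (Fin.succ_ne_zero j), map_zero, finSuccEquiv_X_succ,
        Polynomial.derivative_C]

/-- two ring homomorphisms which agree on the constants and the variables -/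
theorem hom_eq {N : ℕ} {k T : Type} [Field k] [CommRing T] (f g : Po (N + 1) k →+* T)
    (h0 : f (X 0) = g (X 0)) (h1 : ∀ a : Po N k, f (up a) = g (up a)) (c : Po (N + 1) k) :
    f c = g c := by
  have h2 : f = g := by
    refine MvPolynomial.ringHom_ext (fun a => ?_) (fun i => ?_)
    · have h3 := h1 (C a)
      unfold up at h3
      rwa [rename_C] at h3
    · refine Fin.cases h0 (fun j => ?_) i
      have h3 := h1 (X j)
      unfold up at h3
      rwa [rename_X] at h3
  rw [h2]

theorem fse_up {N : ℕ} {k : Type} [Field k] (q : Po N k) :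
    finSuccEquiv k N (up q) = Polynomial.C q := by
  unfold up
  induction q using MvPolynomial.induction_on with
  | C c =>
    rw [rename_C, finSuccEquiv_apply, eval₂Hom_C, RingHom.comp_apply]
  | add p q hp hq => rw [map_add, map_add, hp, hq, Polynomial.C_add]
  | mul_X p i hp =>
    rw [map_mul, map_mul, hp, rename_X, finSuccEquiv_X_succ, Polynomial.C_mul]

theorem one_le {N r : ℕ} {k : Type} [Field k] {P : Po (N + 1) k} (hP : Hyp P r) : 1 ≤ r := by
  by_contra h
  have hr : r = 0 := by omega
  have h1 := hP.hom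
  rw [hr] at h1
  have h2 := (totalDegree_eq_zero_iff_eq_C (p := P)).mp (by
    have := h1.totalDegree_le
    omega)
  by_cases h3 : coeff 0 P = 0
  · rw [h3, C_0] at h2
    exact hP.irr.ne_zero h2
  · apply hP.irr.not_isUnit
    rw [h2]
    exact (IsUnit.mk0 _ h3).map C

section core

variable {N r : ℕ} {k : Type} [Field k] {P c w : Po (N + 1) k}
  {L K : Type} [Field L] [Field K] [Algebra (Po N k) L] [IsFractionRing (Po N k) L]
  [Algebra L K] [FiniteDimensional L K] [Algebra.IsSeparable L K] [Algebra (Po N k) K]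
  [IsScalarTower (Po N k) L K]

theorem phi_eq (Φ : Po (N + 1) k →+* K)
    (hup : ∀ a : Po N k, Φ (up a) = algebraMap (Po N k) K a) (g : Po (N + 1) k) :
    Φ g = Polynomial.aeval (Φ (X 0)) (finSuccEquiv k N g) := by
  refine hom_eq Φ ((Polynomial.aeval (Φ (X 0)) : Polynomial (Po N k) →ₐ[Po N k] K).toRingHom.comp
    (finSuccEquiv k N).toRingHom) ?_ ?_ g
  · change _ = Polynomial.aeval (Φ (X 0)) (finSuccEquiv k N (X 0))
    rw [finSuccEquiv_X_zero, Polynomial.aeval_X]
  · intro a
    change _ = Polynomial.aeval (Φ (X 0)) (finSuccEquiv k N (up a))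
    rw [fse_up, Polynomial.aeval_C, hup]

/-- the traces are polynomials -/
theorem trace_mem (Φ : Po (N + 1) k →+* K) (hΦ : ∀ g, Φ g = 0 ↔ P ∣ g)
    (hup : ∀ a : Po N k, Φ (up a) = algebraMap (Po N k) K a) (hP : Hyp P r) (hw : ¬ P ∣ w)
    (hq : ∀ q : Po N k, Irreducible q → ∃ (κ : Type) (_ : Field κ) (_ : Algebra k κ)
      (ψ : Fin r → Po (N + 1) k →ₐ[k] PowerSeries κ), Spl P q r ψ ∧ ∀ j, ψ j w ∣ ψ j c) :
    ∃ z : Po N k, Algebra.trace L K (Φ c / Φ w) = algebraMap (Po N k) L z := by
  obtain ⟨a, b, hab, hz⟩ := IsFractionRing.exists_reduced_fraction (A := Po N k)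
    (Algebra.trace L K (Φ c / Φ w))
  have hb0 : (b : Po N k) ≠ 0 := nonZeroDivisors.ne_zero b.2
  have hz' : Algebra.trace L K (Φ c / Φ w) =
      algebraMap (Po N k) L a / algebraMap (Po N k) L b := by
    rw [← hz, IsFractionRing.mk'_eq_div]
  have hbu : IsUnit (b : Po N k) := by
    by_contra hbu
    obtain ⟨q, hqi, hqb⟩ := WfDvdMonoid.exists_irreducible_factor hbu hb0
    obtain ⟨κ, _, _, ψ, hspl, hdiv⟩ := hq q hqi
    let j₀ : Fin r := ⟨0, one_le hP⟩
    let e1 : FractionRing (PowerSeries κ) →+* AlgebraicClosure (FractionRing (PowerSeries κ)) :=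
      algebraMap _ _
    let emb : PowerSeries κ →+* AlgebraicClosure (FractionRing (PowerSeries κ)) :=
      e1.comp (algebraMap (PowerSeries κ) (FractionRing (PowerSeries κ)))
    have hemb : Function.Injective emb :=
      e1.injective.comp (IsFractionRing.injective (PowerSeries κ) (FractionRing (PowerSeries κ)))
    let β : Po N k →+* PowerSeries κ := ((ψ j₀ : Po (N + 1) k →+* PowerSeries κ).comp
      (rename Fin.succ : Po N k →ₐ[k] _).toRingHom)
    have hβa : ∀ (l : Fin r) (a : Po N k), β a = ψ l (up a) := fun l a =>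
      hspl.base j₀ l a
    have hβ : Function.Injective β := by
      rw [injective_iff_map_eq_zero]
      intro a ha
      rw [hβa j₀] at ha
      have h1 := (hspl.arc j₀ _).mp ha
      rw [← hΦ, hup, IsScalarTower.algebraMap_apply (Po N k) L K,
        map_eq_zero_iff _ (algebraMap L K).injective,
        map_eq_zero_iff _ (IsFractionRing.injective (Po N k) L)] at h1
      exact h1
    have hdvd : β b ∣ β a := by
      refine tr_dvd (K := K) emb hemb β hβ (Φ c / Φ w) ?_ a b hb0 hz'
      intro σ hσ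
      have hσ' : ∀ a : Po N k, σ (algebraMap (Po N k) K a) = emb (β a) := by
        intro a
        rw [IsScalarTower.algebraMap_apply (Po N k) L K]
        exact hσ a
      -- the root
      have h1 : (finSuccEquiv k N P).eval₂ (emb.comp β) (σ (Φ (X 0))) = 0 := by
        have h2 : σ (Φ P) = 0 := by rw [(hΦ P).mpr dvd_rfl, map_zero]
        rw [phi_eq Φ hup, Polynomial.aeval_def, Polynomial.hom_eval₂] at h2
        have h3 : σ.comp (algebraMap (Po N k) K) = emb.comp β := RingHom.ext hσ'
        rwa [h3] at h2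
      have h4 : ∃ l, σ (Φ (X 0)) = emb (ψ l (X 0)) := by
        rw [← Polynomial.eval₂_map, show (finSuccEquiv k N P).map β = _ from hspl.split j₀,
          Polynomial.eval₂_finsetProd, Finset.prod_eq_zero_iff] at h1
        obtain ⟨l, -, hl⟩ := h1
        refine ⟨l, ?_⟩
        rw [Polynomial.eval₂_sub, Polynomial.eval₂_X, Polynomial.eval₂_C, sub_eq_zero] at hl
        exact hl
      obtain ⟨l, hl⟩ := h4
      have h5 : ∀ g : Po (N + 1) k, σ (Φ g) = emb (ψ l g) := by
        intro g
        refine hom_eq (σ.comp Φ) (emb.comp (ψ l : Po (N + 1) k →+* PowerSeries κ)) hl ?_ g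
        intro a
        change σ (Φ (up a)) = emb (ψ l (up a))
        rw [hup, hσ', hβa l]
      obtain ⟨u, hu⟩ := hdiv l
      refine ⟨u, ?_⟩
      have hw0 : emb (ψ l w) ≠ 0 := by
        rw [Ne, map_eq_zero_iff emb hemb, hspl.arc l]
        exact hw
      rw [map_div₀, h5, h5, hu, map_mul]
      field_simp
    have hra : rd (ψ j₀) (up a) = 0 := by
      have h1 : rd (ψ j₀) (up (b : Po N k)) = 0 := (hspl.iff j₀ _).mpr hqb
      obtain ⟨u, hu⟩ := hdvd
      rw [hβa j₀, hβa j₀] at hu
      unfold rd at h1 ⊢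
      rw [hu, map_mul, h1, zero_mul]
    have hqa : q ∣ a := (hspl.iff j₀ _).mp hra
    exact hqi.not_isUnit (hab hqa hqb)
  obtain ⟨b', hb'⟩ := hbu.exists_right_inv
  refine ⟨a * b', ?_⟩
  rw [hz', map_mul]
  have h1 : algebraMap (Po N k) L b * algebraMap (Po N k) L b' = 1 := by
    rw [← map_mul, hb', map_one]
  have h2 : algebraMap (Po N k) L b ≠ 0 := left_ne_zero_of_mul_eq_one h1
  rw [div_eq_iff h2]
  linear_combination (-(algebraMap (Po N k) L a)) * h1

theorem int_core (Φ : Po (N + 1) k →+* K) (hΦ : ∀ g, Φ g = 0 ↔ P ∣ g)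
    (hup : ∀ a : Po N k, Φ (up a) = algebraMap (Po N k) K a)
    (pb : PowerBasis L K) (hgen : pb.gen = Φ (X 0))
    (hmin : minpoly L pb.gen = (finSuccEquiv k N P).map (algebraMap (Po N k) L))
    (hP : Hyp P r) (hw : ¬ P ∣ w)
    (hq : ∀ q : Po N k, Irreducible q → ∃ (κ : Type) (_ : Field κ) (_ : Algebra k κ)
      (ψ : Fin r → Po (N + 1) k →ₐ[k] PowerSeries κ), Spl P q r ψ ∧ ∀ j, ψ j w ∣ ψ j c) :
    ∃ v : Po (N + 1) k, P ∣ pderiv 0 P * c - w * v := by
  have hw0 : Φ w ≠ 0 := fun h => hw ((hΦ w).mp h)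
  -- the coefficients of the dual basis
  have hint : IsIntegral (Po N k) pb.gen := by
    refine ⟨finSuccEquiv k N P, hP.mon, ?_⟩
    rw [← Polynomial.aeval_def, hgen, ← phi_eq Φ hup, (hΦ P).mpr dvd_rfl]
  have hcf : ∀ i, ∃ g : Po (N + 1) k, Φ g = (minpolyDiv L pb.gen).coeff i := by
    intro i
    have h1 := coeff_minpolyDiv_mem_adjoin (R := Po N k) pb.gen i
    rw [minpolyDiv_eq_of_isIntegrallyClosed (K := L) hint,
      Algebra.adjoin_singleton_eq_range_aeval] at h1
    obtain ⟨p, hp⟩ := h1
    refine ⟨(finSuccEquiv k N).symm p, ?_⟩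
    rw [phi_eq Φ hup, AlgEquiv.apply_symm_apply, ← hgen]
    exact hp
  choose g hg using hcf
  have htr : ∀ i, ∃ z : Po N k, Algebra.trace L K (Φ c / Φ w * (minpolyDiv L pb.gen).coeff i) =
      algebraMap (Po N k) L z := by
    intro i
    obtain ⟨z, hz⟩ := trace_mem (c := c * g i) (L := L) Φ hΦ hup hP hw (fun q hqi => by
      obtain ⟨κ, i1, i2, ψ, h1, h2⟩ := hq q hqi
      refine ⟨κ, i1, i2, ψ, h1, fun j => ?_⟩
      rw [map_mul]
      exact (h2 j).mul_right _)
    have e : Φ (c * g i) / Φ w = Φ c / Φ w * (minpolyDiv L pb.gen).coeff i := by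
      rw [map_mul, ← hg i]
      ring
    refine ⟨z, ?_⟩
    rw [← hz, e]
  choose z hz using htr
  refine ⟨∑ i : Fin pb.dim, up (z i) * X 0 ^ (i : ℕ), ?_⟩
  rw [← hΦ, map_sub, map_mul, map_mul, map_sum]
  have hD : Φ (pderiv 0 P) =
      Polynomial.aeval pb.gen (Polynomial.derivative (minpoly L pb.gen)) := by
    rw [phi_eq Φ hup, fse_pd, hmin, Polynomial.derivative_map, Polynomial.aeval_map_algebraMap,
      hgen]
  have h1 := dual_expand pb (Φ c / Φ w)
  have h2 : ∑ i : Fin pb.dim, Φ (up (z i) * X 0 ^ (i : ℕ)) = Φ (pderiv 0 P) * (Φ c / Φ w) := by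
    rw [hD, h1]
    refine Finset.sum_congr rfl fun i _ => ?_
    rw [map_mul, map_pow, hup, hz i, hgen, ← IsScalarTower.algebraMap_apply]
  rw [h2]
  field_simp
  ring

end core

theorem pf_INT : T_INT := by
  intro N r k _ _ _ P c w hP hw hq
  have hmon : (finSuccEquiv k N P).Monic := hP.mon
  have hirr : Irreducible (finSuccEquiv k N P) :=
    (MulEquiv.irreducible_iff (finSuccEquiv k N)).mpr hP.irr
  have hpL : Irreducible ((finSuccEquiv k N P).map
      (algebraMap (Po N k) (FractionRing (Po N k)))) :=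
    (hmon.irreducible_iff_irreducible_map_fraction_map).mp hirr
  have : Fact (Irreducible ((finSuccEquiv k N P).map
      (algebraMap (Po N k) (FractionRing (Po N k))))) := ⟨hpL⟩
  have : CharZero (FractionRing (Po N k)) :=
    charZero_of_injective_algebraMap (IsFractionRing.injective (Po N k) (FractionRing (Po N k)))
  have hmonL := hmon.map (algebraMap (Po N k) (FractionRing (Po N k)))
  let pb := AdjoinRoot.powerBasis hmonL.ne_zero
  have := pb.finite
  let Φ : Po (N + 1) k →+* AdjoinRoot ((finSuccEquiv k N P).map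
      (algebraMap (Po N k) (FractionRing (Po N k)))) :=
    (AdjoinRoot.mk _).comp ((Polynomial.mapRingHom (algebraMap (Po N k)
      (FractionRing (Po N k)))).comp (finSuccEquiv k N).toRingHom)
  have hΦa : ∀ g, Φ g = AdjoinRoot.mk _ ((finSuccEquiv k N g).map
      (algebraMap (Po N k) (FractionRing (Po N k)))) := fun g => rfl
  refine int_core (L := FractionRing (Po N k)) Φ ?_ ?_ pb ?_ ?_ hP hw hq
  · intro g
    rw [hΦa, AdjoinRoot.mk_eq_zero,
      Polynomial.map_dvd_map _ (IsFractionRing.injective (Po N k) (FractionRing (Po N k))) hmon]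
    exact map_dvd_iff (finSuccEquiv k N)
  · intro a
    rw [hΦa, fse_up, Polynomial.map_C, AdjoinRoot.mk_C]
    rfl
  · rw [hΦa, finSuccEquiv_X_zero, Polynomial.map_X, AdjoinRoot.mk_X, AdjoinRoot.powerBasis_gen]
  · exact AdjoinRoot.minpoly_powerBasis_gen_of_monic hmonL

end Pool.Agent.H10.VZ
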